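import Pool.Agent.Work.MP_db9399_sw.Mach
import Pool.Agent.Work.MP_db9399_hc_helper83.RND1H

/-! MP_db9399, PHASE 2, block RND1H2: one round, vertices with label 2 are never missed
(helper83). -/

set_option autoImplicit false

namespace Pool.Agent.Work.MP_db9399_sw.helper83

open Finset Classical
open Pool.Agent.Work.MP_db9399_all (nb)
open Pool.Agent.Work.MP_db9399_px (LWalk hit ee)
open Pool.Agent.Work.MP_db9399_dn (NB IsMat Tot)
open Pool.Agent.Work.MP_db9399_sc (cut Crit Conn Env Fam Rnd Hv)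
open Pool.Agent.Work.MP_db9399_bg (den cl LabP Good PN IsPat en enP Sep Near REnv r0 Deep Spr Ok
  Lbl bx c3f c3 rs rs_symm eR HPre Ix mem_nb mem_cl)
open Pool.Agent.Work.MP_db9399_lc (BL)
open Pool.Agent.Work.MP_db9399_bg.helper83 (Fr Fr_le nb_Fr nb_Fr' nb_Fr_inter en_Fr notOk_card
  not_deep cl_univ)
open Pool.Agent.Work.MP_db9399_lh (Lh Cr ce su kp io sp pt cr cy rf rx rr tj ty inM rP rR np nr eP
  pr qr qe Vq)
open Pool.Agent.Work.MP_db9399_lh.helper83 (env_deg BL_mono cell_deg near_cell deep_count nr_bd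
  nr_cases SXPtwo card_pat card_Lh Pc mem_Vq Vq_eq den_Vq mem_cy den_cy)
open Pool.Agent.Work.MP_db9399_hc (BH Hosts)
open Pool.Agent.Work.MP_db9399_hc.helper83 (BH_mono used_deep T1Htwo cell_low)

universe u

section lbl
variable {V : Type u} [Fintype V] {l m r K K1 S : ℕ}

/-- cores in the part `i` which may be missed in the rounds -/
noncomputable def Mc2 (l S : ℕ) (i : ZMod 3) : Finset (Cr l S) :=
  (univ.filter (fun x : ZMod (2 * l + 1) =>
    (2 ≤ x.val ∧ x.val ≠ l ∧ x.val ≠ l + 1) ∧ x.val ≠ 2)) ×ˢ ({i} ×ˢ univ)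

theorem card_Mc2 (i : ZMod 3) :
    (2 * (l : ℝ) + 1 - 5) * ((S : ℝ) + 1) ≤ ((Mc2 l S i).card : ℝ) ∧
      ((Mc2 l S i).card : ℝ) ≤ (2 * (l : ℝ) + 1) * ((S : ℝ) + 1) := by
  have h1 : (2 * l + 1) ≤ (univ.filter (fun x : ZMod (2 * l + 1) =>
      (2 ≤ x.val ∧ x.val ≠ l ∧ x.val ≠ l + 1) ∧ x.val ≠ 2)).card + 5 := by
    have hsub : (univ : Finset (ZMod (2 * l + 1))) ⊆ (univ.filter (fun x : ZMod (2 * l + 1) =>
        (2 ≤ x.val ∧ x.val ≠ l ∧ x.val ≠ l + 1) ∧ x.val ≠ 2)) ∪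
        ({(0 : ZMod (2 * l + 1)), 1, ((2 : ℕ) : ZMod (2 * l + 1)), ((l : ℕ) : ZMod (2 * l + 1)),
          ((l + 1 : ℕ) : ZMod (2 * l + 1))} : Finset _) := by
      intro x _
      rw [mem_union, mem_filter]
      by_cases hx : (2 ≤ x.val ∧ x.val ≠ l ∧ x.val ≠ l + 1) ∧ x.val ≠ 2
      · exact Or.inl ⟨mem_univ _, hx⟩
      · refine Or.inr ?_
        have hxv : ((x.val : ℕ) : ZMod (2 * l + 1)) = x := ZMod.natCast_zmod_val x
        simp only [mem_insert, mem_singleton]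
        have : x.val = 0 ∨ x.val = 1 ∨ x.val = 2 ∨ x.val = l ∨ x.val = l + 1 := by omega
        rcases this with h | h | h | h | h
        · left; rw [← hxv, h]; simp
        · right; left; rw [← hxv, h]; simp
        · right; right; left; rw [← hxv, h]
        · right; right; right; left; rw [← hxv, h]
        · right; right; right; right; rw [← hxv, h]
    have h2 := card_le_card hsub
    rw [card_univ, ZMod.card] at h2
    have h3 := card_union_le (univ.filter (fun x : ZMod (2 * l + 1) =>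
        (2 ≤ x.val ∧ x.val ≠ l ∧ x.val ≠ l + 1) ∧ x.val ≠ 2))
        ({(0 : ZMod (2 * l + 1)), 1, ((2 : ℕ) : ZMod (2 * l + 1)), ((l : ℕ) : ZMod (2 * l + 1)),
          ((l + 1 : ℕ) : ZMod (2 * l + 1))} : Finset _)
    have h4 : ({(0 : ZMod (2 * l + 1)), 1, ((2 : ℕ) : ZMod (2 * l + 1)),
          ((l : ℕ) : ZMod (2 * l + 1)),
          ((l + 1 : ℕ) : ZMod (2 * l + 1))} : Finset _).card ≤ 5 := card_le_five
    omega
  have h2 : (univ.filter (fun x : ZMod (2 * l + 1) =>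
      (2 ≤ x.val ∧ x.val ≠ l ∧ x.val ≠ l + 1) ∧ x.val ≠ 2)).card ≤ 2 * l + 1 := by
    refine (card_le_univ _).trans ?_
    rw [ZMod.card]
  unfold Mc2
  rw [card_product, card_product, card_singleton, card_univ, ZMod.card]
  have h1' : (2 * (l : ℝ) + 1) ≤ ((univ.filter (fun x : ZMod (2 * l + 1) =>
      (2 ≤ x.val ∧ x.val ≠ l ∧ x.val ≠ l + 1) ∧ x.val ≠ 2)).card : ℝ) + 5 := by exact_mod_cast h1
  have h2' : ((univ.filter (fun x : ZMod (2 * l + 1) =>
      (2 ≤ x.val ∧ x.val ≠ l ∧ x.val ≠ l + 1) ∧ x.val ≠ 2)).card : ℝ) ≤ 2 * (l : ℝ) + 1 := by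
    exact_mod_cast h2
  push_cast
  rw [one_mul]
  constructor
  · exact mul_le_mul_of_nonneg_right (by linarith) (by positivity)
  · exact mul_le_mul_of_nonneg_right h2' (by positivity)

theorem mem_Mq2 {a : ZMod (2 * m + 1)} {i : ZMod 3} {t : Lh l m r K K1 S} :
    t ∈ cy {a} (Mc2 l S i) ↔ ce t = a ∧ pt t = i ∧ inM t ∧ ¬ mM t := by
  rw [mem_cy]
  simp only [Mc2, inM, mM, mem_singleton, mem_product, mem_filter, mem_univ, true_and, and_true]
  tauto

theorem den_Mq2 (a : ZMod (2 * m + 1)) (i : ZMod 3) :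
    (1 - 5 / (2 * (l : ℝ) + 1)) * (1 / (3 * (2 * (m : ℝ) + 1))) ≤
      den (cy {a} (Mc2 l S i) : Finset (Lh l m r K K1 S)) ∧
    den (cy {a} (Mc2 l S i) : Finset (Lh l m r K K1 S)) ≤ 1 / (3 * (2 * (m : ℝ) + 1)) := by
  rw [den_cy, card_singleton]
  obtain ⟨h1, h2⟩ := card_Mc2 (l := l) (S := S) i
  have e1 : (0 : ℝ) < 2 * (m : ℝ) + 1 := by positivity
  have e2 : (0 : ℝ) < 2 * (l : ℝ) + 1 := by positivity
  have e3 : (0 : ℝ) < (S : ℝ) + 1 := by positivity
  have e4 : (0 : ℝ) < (2 * (l : ℝ) + 1) * (3 * ((S : ℝ) + 1)) := by positivity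
  push_cast
  constructor
  · calc (1 - 5 / (2 * (l : ℝ) + 1)) * (1 / (3 * (2 * (m : ℝ) + 1)))
        = 1 / (2 * (m : ℝ) + 1) * (((2 * (l : ℝ) + 1 - 5) * ((S : ℝ) + 1)) /
          ((2 * (l : ℝ) + 1) * (3 * ((S : ℝ) + 1)))) := by field_simp
      _ ≤ _ := by
          refine mul_le_mul_of_nonneg_left ?_ (by positivity)
          exact div_le_div_of_nonneg_right h1 e4.le
  · calc 1 / (2 * (m : ℝ) + 1) * (((Mc2 l S i).card : ℝ) /
          ((2 * (l : ℝ) + 1) * (3 * ((S : ℝ) + 1))))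
        ≤ 1 / (2 * (m : ℝ) + 1) * (((2 * (l : ℝ) + 1) * ((S : ℝ) + 1)) /
          ((2 * (l : ℝ) + 1) * (3 * ((S : ℝ) + 1)))) := by
          refine mul_le_mul_of_nonneg_left ?_ (by positivity)
          exact div_le_div_of_nonneg_right h2 e4.le
      _ = _ := by field_simp

end lbl

/-- final inequality -/
theorem final_ineq2 {t Λ ε κ g x1 b1 b2 b3 cv : ℝ} (ht : 0 < t) (hg : 0 < g)
    (hg1 : g ≤ 1 / 10) (hκ : 0 < κ) (hε : 0 ≤ ε) (hε1 : ε * (5 + 2 * κ) ≤ g / 40)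
    (hl : 200 ≤ g * Λ) (hl0 : 0 < Λ)
    (h1 : t * (1 - 5 / Λ - 2 * ε) ≤ x1) (h2 : b1 ≤ (1 + 2 * κ) * ε * t) (h0 : 0 ≤ b2)
    (h3 : (1 + g / 2) * b2 ≤ cv) (h4 : cv ≤ (1 + 2 * ε) * t) (h5 : b3 ≤ 20 * t / Λ) :
    b1 + b2 + b3 < x1 := by
  set u := 1 / Λ with hu
  have e1 : 5 / Λ = 5 * u := by rw [hu]; ring
  have e2 : 20 * t / Λ = 20 * t * u := by rw [hu]; ring
  rw [e1] at h1
  rw [e2] at h5
  have hu1 : 200 * u ≤ g := by
    rw [hu, mul_one_div, div_le_iff₀ hl0]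
    exact hl
  have hu0 : 0 < u := by rw [hu]; positivity
  have hb2 : b2 ≤ cv * (1 - g / 3) := by
    have h6 : (1 : ℝ) ≤ (1 + g / 2) * (1 - g / 3) := by nlinarith
    have h7 : b2 * 1 ≤ b2 * ((1 + g / 2) * (1 - g / 3)) := mul_le_mul_of_nonneg_left h6 h0
    have h8 : (1 + g / 2) * b2 * (1 - g / 3) ≤ cv * (1 - g / 3) :=
      mul_le_mul_of_nonneg_right h3 (by linarith)
    nlinarith
  have hb2' : b2 ≤ (1 + 2 * ε) * t * (1 - g / 3) :=
    hb2.trans (mul_le_mul_of_nonneg_right h4 (by linarith))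
  have hεt : 0 ≤ ε * t := mul_nonneg hε ht.le
  have h9 : ε * (5 + 2 * κ) * t ≤ g / 40 * t := mul_le_mul_of_nonneg_right hε1 ht.le
  have h10 : 200 * u * t ≤ g * t := mul_le_mul_of_nonneg_right hu1 ht.le
  have h11 : 0 < g * t := mul_pos hg ht
  have h12 : 0 ≤ ε * t * g := mul_nonneg hεt hg.le
  nlinarith

theorem stmt_RND1H2 (hSXP : MP_db9399_lc.Stmt_SXP.{u}) (hSXR : MP_db9399_bg.Stmt_SXR.{u})
    (hT1 : MP_db9399_hc.Stmt_T1H.{u}) (hPAT : MP_db9399_lh.Stmt_PAT) (hGROW : MP_db9399_hc.Stmt_GROWH.{u})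
    (hDEEPF : MP_db9399_bg.Stmt_DEEPF.{u}) (hHIT2 : MP_db9399_bg.Stmt_HIT2.{u})
    (hTUT2 : MP_db9399_bg.Stmt_TUT2.{u}) : Stmt_RND1H2.{u} := by
  intro h hh0 hh1
  refine ⟨⌈100 / h⌉₊ + 2, ?_⟩
  intro l S g g' R hl hg hgh hg' hR hRg
  have hg1 : g ≤ 1 / 10 := hgh.trans hh1
  obtain ⟨κd, hκ0, hκ⟩ := hDEEPF g' hg'
  set ε : ℝ := h / (40 * (5 + 2 * κd)) with hεdef
  have hε0 : 0 < ε := by positivity
  have hε1 : ε * (5 + 2 * κd) ≤ h / 40 := by
    rw [hεdef]
    have : (5 + 2 * κd) ≠ 0 := by positivity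
    field_simp
    exact le_rfl
  have hl2 : 2 ≤ l := by omega
  have hlg : 200 ≤ h * (2 * (l : ℝ) + 1) := by
    have h1 : (100 / h : ℝ) ≤ l := by
      have h2 : ((⌈100 / h⌉₊ : ℕ) : ℝ) ≤ l := by
        exact_mod_cast (show ⌈100 / h⌉₊ ≤ l by omega)
      exact (Nat.le_ceil _).trans h2
    rw [div_le_iff₀ hh0] at h1
    nlinarith
  obtain ⟨δ1, hδ1, hT1'⟩ := T1Htwo hT1 g ε (nr S none) (nr S (some 0))
    (3 * ((2 * l + 1) * (3 * (S + 1)))) (4 * l + 3) hg hε0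
  obtain ⟨cS, hcS0, hcS1, hSXP'⟩ := SXPtwo hSXP g (nr S none) (nr S (some 0))
    (3 * ((2 * l + 1) * (3 * (S + 1)))) (4 * l + 3) hg
  set c : ℝ := min (cS / 8) (1 / 100) with hc
  have hc0 : 0 < c := lt_min (by positivity) (by norm_num)
  obtain ⟨δ2, dT, hδ2, hTUT⟩ := hTUT2 c hc0 (min_le_right _ _)
  obtain ⟨dH, hHIT⟩ := hHIT2
  set δ : ℝ := min (min δ1 (δ2 / 10)) (min (cS / 100) (1 / 100000)) with hδdef
  have hδ0 : 0 < δ := lt_min (lt_min hδ1 (by positivity)) (lt_min (by positivity) (by norm_num))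
  have hδa : δ ≤ δ1 := (min_le_left _ _).trans (min_le_left _ _)
  have hδb : δ ≤ δ2 / 10 := (min_le_left _ _).trans (min_le_right _ _)
  have hδc : δ ≤ cS / 100 := (min_le_right _ _).trans (min_le_left _ _)
  have hδd : δ ≤ 1 / 100000 := (min_le_right _ _).trans (min_le_right _ _)
  refine ⟨δ, hδ0, ?_⟩
  intro m r K K1 hm
  have hM : 0 < Fintype.card (Lh l m r K K1 S) := by rw [card_Lh]; positivity
  obtain ⟨σ1, c11, ε1, d1, hσ1, hc11, hε1', HT1⟩ := hT1' (Fintype.card (Lh l m r K K1 S)) hM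
  obtain ⟨σ2, c12, ε2, d2, hσ2, hc12, hε2', HSX⟩ := hSXP' (Fintype.card (Lh l m r K K1 S)) hM
  obtain ⟨hPat, -⟩ := hPAT l m r K K1 S hl2 hm
  set N : ℝ := 3 * (2 * (m : ℝ) + 1) with hN
  set Λ : ℝ := 2 * (l : ℝ) + 1 with hΛ
  have hN0 : 0 < N := by positivity
  have hΛ0 : 0 < Λ := by positivity
  have hS0 : (0 : ℝ) < (S : ℝ) + 1 := by positivity
  have hp0 : 0 < pr l m S := (hPat 0 ⟨0, by omega⟩ none).p0
  have hpe : pr l m S * ((S : ℝ) + 1) = 1 / (N * Λ) := by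
    rw [pr, hN, hΛ]
    field_simp
  -- the constants
  set σ : ℝ := min (min σ1 σ2) (min (δ * pr l m S) (g / (200 * N))) with hσdef
  have hσ0 : 0 < σ := lt_min (lt_min hσ1 hσ2) (lt_min (by positivity) (by positivity))
  set ε0 : ℝ := min (min ε1 ε2) (min δ (g / 200)) with hε0def
  have hε00 : 0 < ε0 := lt_min (lt_min hε1' hε2') (lt_min hδ0 (by positivity))
  obtain ⟨D0, hD0⟩ : ∃ D0 : ℕ, 4 * (2500 + 10 / δ2 + dH + dT) / pr l m S ≤ (D0 : ℝ) :=
    ⟨⌈4 * (2500 + 10 / δ2 + dH + dT) / pr l m S⌉₊, Nat.le_ceil _⟩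
  refine ⟨σ, min c11 c12, ε0, max (max d1 d2) (D0 + 1), hσ0, lt_min hc11 hc12, hε00, ?_⟩
  intro V _ ι Hs Ds Dm b dd lab hdall HH hdb κ τ i F a hv U J lg hi Oi hτ hE hlgN hO
  set G : SimpleGraph V := Hs κ with hGdef
  set d : ℕ := Ds κ with hddef
  have hd : max (max d1 d2) (D0 + 1) ≤ d := hdall κ
  have hBG : BH g ε0 b G d := HH.bh κ
  have hLab : LabP G d σ (min c11 c12) lab := HH.lb κ
  have hbd : (1 + g) * d ≤ b := HH.b1 κ
  have hd1 : d1 ≤ d := (le_max_left _ _).trans ((le_max_left _ _).trans hd)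
  have hd2 : d2 ≤ d := (le_max_right _ _).trans ((le_max_left _ _).trans hd)
  have hdD : D0 + 1 ≤ d := (le_max_right _ _).trans hd
  have hd0 : 0 < d := by omega
  have hdR : (0 : ℝ) < d := by exact_mod_cast hd0
  have hDd : (D0 : ℝ) ≤ d := by exact_mod_cast (by omega : D0 ≤ d)
  have hσN : σ * N ≤ g / 200 := by
    have h1 : σ ≤ g / (200 * N) := (min_le_right _ _).trans (min_le_right _ _)
    calc σ * N ≤ g / (200 * N) * N := mul_le_mul_of_nonneg_right h1 hN0.le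
      _ = g / 200 := by field_simp
  have hε0δ : ε0 ≤ δ := (min_le_right _ _).trans (min_le_left _ _)
  have hε0g : ε0 ≤ g / 200 := (min_le_right _ _).trans (min_le_right _ _)
  have hBG1 : BH g ε1 b G d := BH_mono hBG ((min_le_left _ _).trans (min_le_left _ _))
  have hBG2 : BL g ε2 G d :=
    (BH_mono hBG ((min_le_left _ _).trans (min_le_right _ _))).bl hbd
  have hBL : BL g ε0 G d := hBG.bl hbd
  have hBGI : ∀ j, BH g (g / 100) b (Hs κ ⊓ Hs j) (Dm κ j) := fun j =>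
    BH_mono (HH.bh2 κ j) (by linarith)
  have hLab1 : LabP G d σ1 c11 lab :=
    hLab.mono ((min_le_left _ _).trans (min_le_left _ _)) (min_le_left _ _)
  have hLab2 : LabP G d σ2 c12 lab :=
    hLab.mono ((min_le_left _ _).trans (min_le_right _ _)) (min_le_right _ _)
  have hcell := cell_deg hLab hBL hε0g hg1 hσN
  have hb0 : 0 < b := lt_of_lt_of_le (by positivity) hbd
  -- the typical degree
  obtain ⟨hnr1, hnr2⟩ := nr_bd S τ
  have hnr1' : (1 : ℝ) ≤ nr S τ := by exact_mod_cast hnr1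
  have hnr2' : (nr S τ : ℝ) ≤ 10 * ((S : ℝ) + 1) := by exact_mod_cast hnr2
  set q : ℝ := qr l m S τ d with hq
  have hqn : (nr S τ : ℝ) * pr l m S * (d : ℝ) = q := rfl
  have hpd : pr l m S * d ≤ q := by
    rw [← hqn]
    calc pr l m S * d = 1 * pr l m S * d := by ring
      _ ≤ _ := mul_le_mul_of_nonneg_right (mul_le_mul_of_nonneg_right hnr1' hp0.le) hdR.le
  have hq0 : 0 < q := lt_of_lt_of_le (mul_pos hp0 hdR) hpd
  have hqup : q ≤ 10 * (d : ℝ) / (N * Λ) := by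
    rw [← hqn]
    calc (nr S τ : ℝ) * pr l m S * d ≤ 10 * ((S : ℝ) + 1) * pr l m S * d :=
          mul_le_mul_of_nonneg_right (mul_le_mul_of_nonneg_right hnr2' hp0.le) hdR.le
      _ = 10 * d * (pr l m S * ((S : ℝ) + 1)) := by ring
      _ = 10 * (d : ℝ) / (N * Λ) := by rw [hpe]; ring
  have hqbig : 4 * (2500 + 10 / δ2 + dH + dT) ≤ q := by
    refine le_trans ?_ hpd
    have h1 : 4 * (2500 + 10 / δ2 + dH + dT) / pr l m S ≤ d := hD0.trans hDd
    rw [div_le_iff₀ hp0] at h1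
    linarith
  have hδ2i : 0 < 10 / δ2 := by positivity
  have hdH0 : (0 : ℝ) ≤ dH := Nat.cast_nonneg _
  have hdT0 : (0 : ℝ) ≤ dT := Nat.cast_nonneg _
  have hσq : σ * d ≤ δ * q := by
    have h1 : σ ≤ δ * pr l m S := (min_le_right _ _).trans (min_le_left _ _)
    calc σ * d ≤ δ * pr l m S * d := mul_le_mul_of_nonneg_right h1 hdR.le
      _ = δ * (pr l m S * d) := by ring
      _ ≤ δ * q := mul_le_mul_of_nonneg_left hpd hδ0.le
  -- restriction to U
  have hPa := hPat a hv τ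
  have hE' := Pool.Agent.Work.MP_db9399_bg.helper83.REnv.restrict hE
  set F' : SimpleGraph V := Fr F U with hF'
  have hE'' : REnv G F' ((nr S τ : ℝ) * pr l m S * (d : ℝ)) δ
      lab (rP l r K K1 S a hv τ) (rR l S τ) U J := hE'
  have hdegs := env_deg hPa hLab hBL hE'' (by rw [hqn]; exact hσq) hε0δ hδ0.le
  rw [hqn] at hdegs
  obtain ⟨qq, hqq1, hqq2⟩ : ∃ qq : ℕ, (1 + 3 * δ) * q ≤ qq ∧ (qq : ℝ) < (1 + 3 * δ) * q + 1 :=
    ⟨⌈(1 + 3 * δ) * q⌉₊, Nat.le_ceil _, Nat.ceil_lt_add_one (by positivity)⟩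
  have hδq : 0 < δ * q := by positivity
  have hδq1 : δ * q ≤ 1 / 100000 * q := mul_le_mul_of_nonneg_right hδd hq0.le
  have hδq2 : δ * q ≤ δ2 / 10 * q := mul_le_mul_of_nonneg_right hδb hq0.le
  have hqqq : q ≤ qq := by linarith
  have hqq3 : (qq : ℝ) ≤ 101 / 100 * q := by linarith
  have hdeg' : ∀ v, (nb F' v).card ≤ qq := by
    intro v
    by_cases hv : v ∈ U
    · have h1 := (hdegs v hv).2
      have h2 : nb F' v ∩ U = nb F' v := by
        rw [hF', nb_Fr F hv, inter_assoc, inter_self]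
      rw [h2] at h1
      have h3 : ((nb F' v).card : ℝ) ≤ qq := by linarith
      exact_mod_cast h3
    · rw [hF', nb_Fr' F hv]; simp
  have hEnv : Env F' F' qq U U := by
    refine ⟨le_rfl, hdeg', Subset.refl _, ?_⟩
    intro v hv
    have h1 := (hdegs v hv).1
    have h2 : (999 : ℝ) * qq ≤ 1000 * ((nb F' v ∩ U).card : ℝ) := by linarith
    exact_mod_cast h2
  have hdHq : dH ≤ qq := by
    have : (dH : ℝ) ≤ qq := by linarith
    exact_mod_cast this
  have hdTq : dT ≤ qq := by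
    have : (dT : ℝ) ≤ qq := by linarith
    exact_mod_cast this
  obtain ⟨Cs, hFam, hCs⟩ := hHIT F' qq U U hdHq hEnv
  -- the exceptional vertices
  have hcardβ := card_pat l S τ
  have hex : ∀ C ∈ Cs, ∃ z ∈ C, (ce (lab z) = a ∧ pt (lab z) = i ∧ inM (lab z) ∧ ¬ mM (lab z)) ∧
      Deep g' G d (3 * (2 * m + 1)) (Vq lab a i) C z ∧ Ok F' U C z ∧ ∀ j < lg, z ∉ Oi j := by
    intro C hC
    have hcrit := hFam.crit C hC
    have hconn := hFam.conn C hC
    obtain ⟨Y, hY1, hY2, hY3, hY4⟩ := HT1 (rP l r K K1 S a hv τ) (rR l S τ)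
      (pr l m S) b G F' (nr S τ) d qq lab U J U C (nr_cases S τ) hPa hcardβ rfl hd1 hBG1 hbd
      hLab1 (hE''.mono (by rw [hqn]; exact hq0.le) hδa) (by rw [hqn]; exact hqqq)
      (by rw [hqn]; exact hqq3) (Subset.refl _) hcrit hconn
    have hYpos : (0 : ℝ) < Y.card := hb0.trans hY1
    set t : ℝ := Y.card / N with ht
    have ht0 : 0 < t := by positivity
    have hnear := near_cell hτ hY4
    have hsd : (((C ∩ Vq lab a i) \ Y).card : ℝ) + (((Y ∩ Vq lab a i) \ C).card : ℝ) ≤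
        ε * t := by
      refine hnear.trans (le_of_eq ?_)
      rw [ht, ← hΛ]
      calc Λ * ((S : ℝ) + 1) * (ε * pr l m S * (Y.card : ℝ)) =
          Λ * (pr l m S * ((S : ℝ) + 1)) * (ε * (Y.card : ℝ)) := by ring
        _ = _ := by rw [hpe]; field_simp
    have hsd1 : (0 : ℝ) ≤ (((C ∩ Vq lab a i) \ Y).card : ℝ) := Nat.cast_nonneg _
    have hsd2 : (0 : ℝ) ≤ (((Y ∩ Vq lab a i) \ C).card : ℝ) := Nat.cast_nonneg _
    -- sizes
    have hcv : ((C ∩ Vq lab a i).card : ℝ) ≤ (1 + 2 * ε) * t := by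
      have h1 := hY3 (cy {a} (Pc l S i))
      rw [← Vq_eq, den_Vq, ← hN, abs_le] at h1
      have h2 : ((C ∩ Vq lab a i).card : ℝ) ≤ ((Y ∩ Vq lab a i).card : ℝ) +
          (((C ∩ Vq lab a i) \ Y).card : ℝ) := by
        have : C ∩ Vq lab a i ⊆ (Y ∩ Vq lab a i) ∪ ((C ∩ Vq lab a i) \ Y) := by
          intro v hv
          by_cases hvY : v ∈ Y
          · exact mem_union_left _ (mem_inter.mpr ⟨hvY, (mem_inter.mp hv).2⟩)
          · exact mem_union_right _ (mem_sdiff.mpr ⟨hv, hvY⟩)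
        exact_mod_cast (card_le_card this).trans (card_union_le _ _)
      have h3 : 1 / N * (Y.card : ℝ) = t := by rw [ht]; ring
      have h4 : ε * (1 / N) * (Y.card : ℝ) = ε * t := by rw [ht]; ring
      rw [h3, h4] at h1
      linarith [h1.2]
    have hx1 : t * (1 - 5 / Λ - 2 * ε) ≤
        ((C.filter (fun z => ce (lab z) = a ∧ pt (lab z) = i ∧ inM (lab z) ∧ ¬ mM (lab z))).card : ℝ) := by
      have h1 := hY3 (cy {a} (Mc2 l S i))
      obtain ⟨hd3, hd4⟩ := den_Mq2 (l := l) (m := m) (r := r) (K := K) (K1 := K1) (S := S) a i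
      rw [← hN, ← hΛ] at hd3
      rw [← hN] at hd4
      rw [abs_le] at h1
      have h2 : ((Y ∩ cl lab (cy {a} (Mc2 l S i))).card : ℝ) ≤
          ((C.filter (fun z => ce (lab z) = a ∧ pt (lab z) = i ∧ inM (lab z) ∧ ¬ mM (lab z))).card : ℝ) +
          (((Y ∩ Vq lab a i) \ C).card : ℝ) := by
        have : Y ∩ cl lab (cy {a} (Mc2 l S i)) ⊆
            (C.filter (fun z => ce (lab z) = a ∧ pt (lab z) = i ∧ inM (lab z) ∧ ¬ mM (lab z))) ∪
              ((Y ∩ Vq lab a i) \ C) := by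
          intro v hv
          rw [mem_inter, mem_cl, mem_Mq2] at hv
          by_cases hvC : v ∈ C
          · exact mem_union_left _ (mem_filter.mpr ⟨hvC, hv.2⟩)
          · exact mem_union_right _ (mem_sdiff.mpr
              ⟨mem_inter.mpr ⟨hv.1, mem_Vq.mpr ⟨hv.2.1, hv.2.2.1⟩⟩, hvC⟩)
        exact_mod_cast (card_le_card this).trans (card_union_le _ _)
      have h3 : (1 - 5 / Λ) * t ≤ den (cy {a} (Mc2 l S i) : Finset (Lh l m r K K1 S)) *
          (Y.card : ℝ) := by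
        calc (1 - 5 / Λ) * t = (1 - 5 / Λ) * (1 / N) * (Y.card : ℝ) := by rw [ht]; ring
          _ ≤ _ := mul_le_mul_of_nonneg_right hd3 hYpos.le
      have h4 : ε * den (cy {a} (Mc2 l S i) : Finset (Lh l m r K K1 S)) * (Y.card : ℝ) ≤
          ε * t := by
        calc ε * den (cy {a} (Mc2 l S i) : Finset (Lh l m r K K1 S)) * (Y.card : ℝ) ≤
            ε * (1 / N) * (Y.card : ℝ) :=
              mul_le_mul_of_nonneg_right (mul_le_mul_of_nonneg_left hd4 hε0.le) hYpos.le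
          _ = ε * t := by rw [ht]; ring
      have h6 : t * (1 - 5 / Λ - 2 * ε) = (1 - 5 / Λ) * t - ε * t - ε * t := by ring
      rw [h6]
      linarith [h1.1]
    -- not deep
    have hb1 : (((C ∩ Vq lab a i).filter
        (fun v => ¬ Deep g' G d (3 * (2 * m + 1)) (Vq lab a i) C v)).card : ℝ) ≤
        (1 + 2 * κd) * ε * t := by
      have h1 := not_deep (Deep g' G d (3 * (2 * m + 1)) (Vq lab a i) C) (Vq lab a i) Y C
      have h2 := deep_count (C := C) hd0 hε0.le hκ (fun v => hBG.deg v) a i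
        (fun v => (hcell a i v).2) hY2
      rw [← hN] at h2
      have h3 : ε * (Y.card : ℝ) / N = ε * t := by rw [ht]; ring
      rw [h3] at h2
      have h4 : κd * (ε * t + (((Y ∩ Vq lab a i) \ C).card : ℝ)) ≤ κd * (ε * t + ε * t) :=
        mul_le_mul_of_nonneg_left (by linarith) hκ0.le
      have h5 : (1 + 2 * κd) * ε * t = ε * t + κd * (ε * t + ε * t) := by ring
      rw [h5]
      linarith only [h1, h2, h4, hsd, hsd1, hsd2]
    -- used and deep
    have hb2 := used_deep (R := R) (g' := g') hg hgh hh1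
      (hGROW g g' R b hg hg1 hg' hR hRg) Hs Ds Dm κ dd (3 * (2 * m + 1)) (by omega) hdb hb0
      hBGI (fun j => HH.rat κ j) (fun j => HH.ratb κ j) (Vq lab a i) C
      (fun j v => cell_low (HH.lb2 κ j) (HH.bh2 κ j) hε0g hσN a i v) lg hi Oi hlgN hO
    -- not Ok
    have hb3 : ((C.filter (fun z => ¬ Ok F' U C z)).card : ℝ) ≤ 20 * t / Λ := by
      have h1 := notOk_card F' U C qq ((1 - 3 * δ) * q) (fun v hv => (hdegs v hv).1) hcrit.1
        hcrit.2.2 (by linarith)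
      have h2 : (5 : ℝ) * cut F' U C < 7 * qq := by exact_mod_cast hcrit.2.2
      have h3 : ((C.filter (fun z => ¬ Ok F' U C z)).card : ℝ) ≤ 4 + cut F' U C := by
        exact_mod_cast h1
      have h4 : 2 * q ≤ 20 * t / Λ := by
        rw [ht]
        have h5 : (d : ℝ) ≤ Y.card := by
          have : 0 ≤ g * d := by positivity
          linarith
        calc 2 * q ≤ 2 * (10 * (d : ℝ) / (N * Λ)) :=
              mul_le_mul_of_nonneg_left hqup (by norm_num)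
          _ = 20 * ((d : ℝ) / N) / Λ := by field_simp; norm_num
          _ ≤ _ := by
            refine div_le_div_of_nonneg_right ?_ hΛ0.le
            exact mul_le_mul_of_nonneg_left (div_le_div_of_nonneg_right h5 hN0.le) (by norm_num)
      linarith
    have hfin := final_ineq2
      (x1 := ((C.filter (fun z => ce (lab z) = a ∧ pt (lab z) = i ∧ inM (lab z) ∧ ¬ mM (lab z))).card : ℝ))
      (b1 := (((C ∩ Vq lab a i).filter
        (fun v => ¬ Deep g' G d (3 * (2 * m + 1)) (Vq lab a i) C v)).card : ℝ))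
      (b2 := (((C ∩ Vq lab a i).filter (fun z => Deep g' G d (3 * (2 * m + 1)) (Vq lab a i) C z ∧
        ∃ j < lg, z ∈ Oi j)).card : ℝ))
      (b3 := ((C.filter (fun z => ¬ Ok F' U C z)).card : ℝ))
      ht0 hh0 hh1 hκ0 hε0.le hε1 hlg hΛ0 hx1 hb1 (Nat.cast_nonneg _) hb2 hcv hb3
    by_contra hno
    push Not at hno
    have hsub : C.filter (fun z => ce (lab z) = a ∧ pt (lab z) = i ∧ inM (lab z) ∧ ¬ mM (lab z)) ⊆
        (((C ∩ Vq lab a i).filter
          (fun v => ¬ Deep g' G d (3 * (2 * m + 1)) (Vq lab a i) C v)) ∪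
        ((C ∩ Vq lab a i).filter (fun z => Deep g' G d (3 * (2 * m + 1)) (Vq lab a i) C z ∧
          ∃ j < lg, z ∈ Oi j))) ∪ (C.filter (fun z => ¬ Ok F' U C z)) := by
      intro z hz
      obtain ⟨hzC, hza⟩ := mem_filter.mp hz
      have hzV : z ∈ C ∩ Vq lab a i := mem_inter.mpr ⟨hzC, mem_Vq.mpr ⟨hza.1, hza.2.1⟩⟩
      by_cases hD : Deep g' G d (3 * (2 * m + 1)) (Vq lab a i) C z
      · by_cases hOk : Ok F' U C z
        · obtain ⟨j, hj, hj2⟩ := hno z hzC hza hD hOk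
          exact mem_union_left _ (mem_union_right _ (mem_filter.mpr ⟨hzV, hD, j, hj, hj2⟩))
        · exact mem_union_right _ (mem_filter.mpr ⟨hzC, hOk⟩)
      · exact mem_union_left _ (mem_union_left _ (mem_filter.mpr ⟨hzV, hD⟩))
    have h7 := (card_le_card hsub).trans (card_union_le _ _)
    have h8 := card_union_le ((C ∩ Vq lab a i).filter
        (fun v => ¬ Deep g' G d (3 * (2 * m + 1)) (Vq lab a i) C v))
        ((C ∩ Vq lab a i).filter (fun z => Deep g' G d (3 * (2 * m + 1)) (Vq lab a i) C z ∧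
          ∃ j < lg, z ∈ Oi j))
    have h9 : ((C.filter (fun z => ce (lab z) = a ∧ pt (lab z) = i ∧ inM (lab z) ∧ ¬ mM (lab z))).card : ℝ) ≤
        (((C ∩ Vq lab a i).filter
        (fun v => ¬ Deep g' G d (3 * (2 * m + 1)) (Vq lab a i) C v)).card : ℝ) +
        (((C ∩ Vq lab a i).filter (fun z => Deep g' G d (3 * (2 * m + 1)) (Vq lab a i) C z ∧
        ∃ j < lg, z ∈ Oi j)).card : ℝ) + ((C.filter (fun z => ¬ Ok F' U C z)).card : ℝ) := by
      exact_mod_cast h7.trans (Nat.add_le_add_right h8 _)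
    linarith
  -- choice
  choose f hf using hex
  set O : Finset V := Cs.attach.image (fun C => f C.1 C.2) with hOdef
  have hOmem : ∀ z ∈ O, ∃ (C : Finset V) (hC : C ∈ Cs), f C hC = z := by
    intro z hz
    obtain ⟨C, -, h1⟩ := mem_image.mp hz
    exact ⟨C.1, C.2, h1⟩
  have hOf : ∀ (C : Finset V) (hC : C ∈ Cs), f C hC ∈ O := fun C hC =>
    mem_image.mpr ⟨⟨C, hC⟩, mem_attach _ _, rfl⟩
  have hen : ∀ A B : Finset V, Disjoint A B → A ⊆ U → B ⊆ U →
      c * qq * ((A.card : ℝ) + B.card) ≤ en F' U A B := by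
    intro A B hAB hA hB
    have h1 := hSXR (rP l r K K1 S a hv τ) (rR l S τ) (nr S τ) (4 * l + 3)
      (pr l m S) cS δ q G F' lab U J hPa hcS0 hcS1 hδ0.le hδc
      hq0.le (by
        intro A B h1 h2
        have h3 := HSX (rP l r K K1 S a hv τ) (rR l S τ)
          (pr l m S) G (nr S τ) d lab A B (nr_cases S τ) hPa hcardβ rfl hd2 hBG2 hLab2
          h1 h2
        rw [hqn] at h3
        exact h3) hE' A B hAB hA hB
    refine le_trans ?_ h1
    have h4 : c * qq ≤ cS / 4 * q := by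
      have h5 : c ≤ cS / 8 := min_le_left _ _
      calc c * qq ≤ cS / 8 * qq := mul_le_mul_of_nonneg_right h5 (Nat.cast_nonneg _)
        _ ≤ cS / 8 * (101 / 100 * q) := mul_le_mul_of_nonneg_left hqq3 (by positivity)
        _ ≤ cS / 4 * q := by linarith only [mul_pos hcS0 hq0]
    exact mul_le_mul_of_nonneg_right h4 (by positivity)
  have hlow : ∀ v ∈ U, (1 - δ2) * qq ≤ ((nb F' v ∩ U).card : ℝ) := by
    intro v hv
    have h1 := (hdegs v hv).1
    have h2 : δ2 * q ≤ δ2 * qq := mul_le_mul_of_nonneg_left hqqq hδ2.le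
    have h3 : 40 ≤ δ2 * q := by
      have h4 : 40 / δ2 ≤ q := by
        have : 40 / δ2 = 4 * (10 / δ2) := by ring
        rw [this]; linarith
      rw [div_le_iff₀ hδ2] at h4
      linarith only [h4]
    have e : (1 - δ2) * (qq : ℝ) = qq - δ2 * qq := by ring
    rw [e]
    linarith only [h1, h2, h3, hqq2, hδq2, hq0]
  obtain ⟨M, hMF, hMm, hMU, hMc⟩ := hTUT F' qq U O Cs hdTq hdeg' hlow hen hFam.crit hFam.dis hCs
    (fun C hC => ⟨f C hC, hOf C hC, (hf C hC).2.2.2.1⟩)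
  refine ⟨M, O, hMF.trans (Fr_le F U), hMm, hMU, hMc, ?_, ?_, ?_⟩
  · intro z hz
    obtain ⟨C, hC, rfl⟩ := hOmem z hz
    exact (hFam.crit C hC).1 (hf C hC).1
  · intro z hz
    obtain ⟨C, hC, rfl⟩ := hOmem z hz
    exact ⟨(hf C hC).2.1.1, (hf C hC).2.1.2.1, (hf C hC).2.1.2.2.1, (hf C hC).2.1.2.2.2, (hf C hC).2.2.2.2⟩
  · refine ⟨Cs, hFam.dis, ?_, ?_⟩
    · intro z hz
      obtain ⟨C, hC, rfl⟩ := hOmem z hz
      exact ⟨mem_Vq.mpr ⟨(hf C hC).2.1.1, (hf C hC).2.1.2.1⟩, C, hC, (hf C hC).1,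
        (hf C hC).2.2.1⟩
    · intro C hC
      have key : ∀ z ∈ O ∩ C, z = f C hC := by
        intro z hz
        rw [mem_inter] at hz
        obtain ⟨C', hC', rfl⟩ := hOmem z hz.1
        by_cases he : C' = C
        · subst he; rfl
        · exact absurd hz.2 (disjoint_left.mp (hFam.dis C' hC' C hC he) (hf C' hC').1)
      rw [card_le_one]
      intro z hz z' hz'
      rw [key z hz, key z' hz']

end Pool.Agent.Work.MP_db9399_sw.helper83
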